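import Pool.Agent.Helper29L.Fan
import Pool.Agent.Helper29L.MK
import Pool.Agent.Helper29L.Stm5

/-!
# The moments of the chain of Klagsbrun, Mazur and Rubin, and the convergence with weights (helper29)
-/

set_option autoImplicit false
set_option linter.all false

open Finset Filter Topology
open scoped Classical

namespace Pool.Agent.H29D

open Pool.Agent.Helper29L (chain C2 S_MK S_C2 mk c2 StepOK)
open Pool.Agent.Helper29L.FanT (chain_mem card_cons image_cons)

/-- The expected value of `g` after `k` steps, starting in `r`. -/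
noncomputable def E : ℕ → ℕ → (ℕ → ℝ) → ℝ
  | 0, r, g => g r
  | k + 1, r, g => (1 / 2) ^ r * E k (r + 1) g + (1 - (1 / 2) ^ r) * E k (r - 1) g

theorem E_succ (k r : ℕ) (g : ℕ → ℝ) :
    E (k + 1) r g = (1 / 2) ^ r * E k (r + 1) g + (1 - (1 / 2) ^ r) * E k (r - 1) g := rfl

theorem half_pow (r : ℕ) : 0 ≤ ((1 : ℝ) / 2) ^ r ∧ ((1 : ℝ) / 2) ^ r ≤ 1 :=
  ⟨by positivity, pow_le_one₀ (by norm_num) (by norm_num)⟩

/-- The transition operator. -/
noncomputable def T (g : ℕ → ℝ) (n : ℕ) : ℝ := (1 / 2) ^ n * g (n + 1) + (1 - (1 / 2) ^ n) * g (n - 1)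

theorem E_T (k : ℕ) (g : ℕ → ℝ) : ∀ r : ℕ, E (k + 1) r g = E k r (T g) := by
  induction k with
  | zero => intro r; rfl
  | succ k ih =>
    intro r
    rw [E_succ, ih, ih, E_succ]

theorem E_lin (k : ℕ) (a b : ℝ) (f g : ℕ → ℝ) : ∀ r : ℕ,
    E k r (fun n => a * f n + b * g n) = a * E k r f + b * E k r g := by
  induction k with
  | zero => intro r; rfl
  | succ k ih =>
    intro r
    rw [E_succ, E_succ, E_succ, ih, ih]
    ring

theorem E_mono (k : ℕ) {f g : ℕ → ℝ} (h : ∀ n, f n ≤ g n) : ∀ r : ℕ, E k r f ≤ E k r g := by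
  induction k with
  | zero => intro r; exact h r
  | succ k ih =>
    intro r
    rw [E_succ, E_succ]
    have h1 := half_pow r
    exact add_le_add (mul_le_mul_of_nonneg_left (ih _) h1.1)
      (mul_le_mul_of_nonneg_left (ih _) (by linarith))

theorem E_one (k : ℕ) : ∀ r : ℕ, E k r (fun _ => 1) = 1 := by
  induction k with
  | zero => intro r; rfl
  | succ k ih =>
    intro r
    rw [E_succ, ih, ih]
    ring

/-- bounds on the reachable states -/
theorem E_bound (k : ℕ) {g : ℕ → ℝ} {G : ℝ} {N : ℕ} (h : ∀ n ≤ N, |g n| ≤ G) : ∀ r : ℕ, r + k ≤ N →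
    |E k r g| ≤ G := by
  induction k with
  | zero => intro r hr; exact h r (by omega)
  | succ k ih =>
    intro r hr
    rw [E_succ]
    have h1 := half_pow r
    have h2 := ih (r + 1) (by omega)
    have h3 := ih (r - 1) (by omega)
    calc |(1 / 2) ^ r * E k (r + 1) g + (1 - (1 / 2) ^ r) * E k (r - 1) g|
        ≤ |(1 / 2) ^ r * E k (r + 1) g| + |(1 - (1 / 2) ^ r) * E k (r - 1) g| := abs_add_le _ _
      _ = (1 / 2) ^ r * |E k (r + 1) g| + (1 - (1 / 2) ^ r) * |E k (r - 1) g| := by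
          rw [abs_mul, abs_mul, abs_of_nonneg h1.1, abs_of_nonneg (by linarith : (0 : ℝ) ≤ 1 - (1 / 2) ^ r)]
      _ ≤ (1 / 2) ^ r * G + (1 - (1 / 2) ^ r) * G :=
          add_le_add (mul_le_mul_of_nonneg_left h2 h1.1)
            (mul_le_mul_of_nonneg_left h3 (by linarith))
      _ = G := by ring

/-- In terms of the distribution. -/
theorem E_chain (k : ℕ) (g : ℕ → ℝ) : ∀ (r N : ℕ), r + k < N →
    E k r g = ∑ n ∈ range N, chain k r n * g n := by
  induction k with
  | zero =>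
    intro r N hN
    have e : ∀ n, chain 0 r n = if r = n then 1 else 0 := fun n => rfl
    simp only [e, ite_mul, one_mul, zero_mul]
    rw [Finset.sum_ite_eq, if_pos (mem_range.2 (by omega))]
    rfl
  | succ k ih =>
    intro r N hN
    rw [E_succ, ih (r + 1) N (by omega), ih (r - 1) N (by omega), Finset.mul_sum, Finset.mul_sum,
      ← Finset.sum_add_distrib]
    refine Finset.sum_congr rfl fun n _ => ?_
    have e : chain (k + 1) r n =
        (1 / 2) ^ r * chain k (r + 1) n + (1 - (1 / 2) ^ r) * chain k (r - 1) n := rfl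
    rw [e]
    ring

/-! ### The moments -/

/-- The function `2 ^ (m n)`. -/
noncomputable def gm (m n : ℕ) : ℝ := ((2 : ℝ) ^ m) ^ n

theorem gm_nonneg (m n : ℕ) : 0 ≤ gm m n := by unfold gm; positivity

theorem gm_zero : gm 0 = fun _ => 1 := by
  funext n
  simp [gm]

theorem T_gm (m : ℕ) : T (gm (m + 1)) = fun n =>
    (1 / 2) ^ (m + 1) * gm (m + 1) n + (2 ^ (m + 1) - (1 / 2) ^ (m + 1)) * gm m n := by
  funext n
  have hm : (2 : ℝ) ^ m ≠ 0 := by positivity
  rcases n with _ | n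
  · simp [T, gm]
  · have h2n : ((2 : ℝ) ^ n) ≠ 0 := by positivity
    unfold T gm
    rw [Nat.add_sub_cancel]
    have e1 : ((2 : ℝ) ^ (m + 1)) ^ (n + 1) = (2 ^ m) ^ (n + 1) * 2 ^ (n + 1) := by
      rw [pow_succ 2 m, mul_pow]
    have e2 : ((2 : ℝ) ^ (m + 1)) ^ (n + 1 + 1) = (2 ^ m) ^ (n + 1) * 2 ^ (n + 1) * (2 ^ (m + 1)) := by
      rw [pow_succ ((2 : ℝ) ^ (m + 1)) (n + 1), e1]
    have e3 : ((2 : ℝ) ^ (m + 1)) ^ n * 2 ^ (m + 1) = (2 ^ m) ^ (n + 1) * 2 ^ (n + 1) := by
      rw [← e1, ← pow_succ]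
    have e4 : ((2 : ℝ) ^ (m + 1)) ^ n = (1 / 2) ^ (m + 1) * ((2 ^ m) ^ (n + 1) * 2 ^ (n + 1)) := by
      rw [← e3]
      have : ((1 : ℝ) / 2) ^ (m + 1) * 2 ^ (m + 1) = 1 := by
        rw [← mul_pow]; norm_num
      calc ((2 : ℝ) ^ (m + 1)) ^ n = ((2 : ℝ) ^ (m + 1)) ^ n * (((1 : ℝ) / 2) ^ (m + 1) * 2 ^ (m + 1)) := by
            rw [this, mul_one]
        _ = _ := by ring
    rw [e4, e2, e1]
    have e5 : ((1 : ℝ) / 2) ^ (n + 1) * 2 ^ (n + 1) = 1 := by
      rw [← mul_pow]; norm_num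
    have e6 : ((1 : ℝ) / 2) ^ (m + 1) * 2 ^ (m + 1) = 1 := by
      rw [← mul_pow]; norm_num
    have key : ∀ X Y y M z : ℝ, y * Y = 1 →
        y * (X * Y * M) + (1 - y) * (z * (X * Y)) = z * (X * Y) + (M - z) * X := by
      intro X Y y M z h
      linear_combination (X * M - z * X) * h
    exact key _ _ _ _ _ e5

/-- The recursion for the moments. -/
theorem e_rec (m k r : ℕ) : E (k + 1) r (gm (m + 1)) =
    (1 / 2) ^ (m + 1) * E k r (gm (m + 1)) + (2 ^ (m + 1) - (1 / 2) ^ (m + 1)) * E k r (gm m) := by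
  rw [E_T, T_gm, E_lin]

/-- `∏_{i = 1}^m (1 + 2 ^ i)`. -/
noncomputable def mu (m : ℕ) : ℝ := ∏ i ∈ Icc 1 m, (1 + (2 : ℝ) ^ i)

theorem mu_succ (m : ℕ) : mu (m + 1) = mu m * (1 + 2 ^ (m + 1)) := by
  unfold mu
  rw [Finset.prod_Icc_succ_top (by omega)]

/-- a recursion with a contraction -/
theorem rec_tendsto {a : ℝ} (ha : 0 ≤ a) (ha1 : a < 1) {x c : ℕ → ℝ} {L : ℝ}
    (h : ∀ k, x (k + 1) = a * x k + c k) (hc : Tendsto c atTop (𝓝 L)) :
    Tendsto x atTop (𝓝 (L / (1 - a))) := by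
  have h1a : 0 < 1 - a := by linarith
  rw [Metric.tendsto_atTop] at hc ⊢
  intro η hη
  obtain ⟨N, hN⟩ := hc (η / 2 * (1 - a)) (by positivity)
  have hd : ∀ k, x (N + k) - L / (1 - a) = a ^ k * (x N - L / (1 - a)) +
      ∑ i ∈ range k, a ^ (k - 1 - i) * (c (N + i) - L) := by
    intro k
    induction k with
    | zero => simp
    | succ k ih =>
      have e : x (N + (k + 1)) - L / (1 - a) = a * (x (N + k) - L / (1 - a)) + (c (N + k) - L) := by
        rw [← add_assoc, h]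
        field_simp
        ring
      rw [e, ih, Finset.sum_range_succ, mul_add, Finset.mul_sum]
      have e2 : ∑ i ∈ range k, a * (a ^ (k - 1 - i) * (c (N + i) - L)) =
          ∑ i ∈ range k, a ^ (k + 1 - 1 - i) * (c (N + i) - L) := by
        refine Finset.sum_congr rfl fun i hi => ?_
        have hi' := mem_range.1 hi
        rw [← mul_assoc, ← pow_succ', show k - 1 - i + 1 = k + 1 - 1 - i by omega]
      rw [e2, show k + 1 - 1 - k = 0 by omega, pow_zero, one_mul]
      ring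
  have hpow : Tendsto (fun k => a ^ k * |x N - L / (1 - a)|) atTop (𝓝 0) := by
    have := (tendsto_pow_atTop_nhds_zero_of_lt_one ha ha1).mul_const |x N - L / (1 - a)|
    simpa using this
  rw [Metric.tendsto_atTop] at hpow
  obtain ⟨M, hM⟩ := hpow (η / 2) (half_pos hη)
  refine ⟨N + M, fun n hn => ?_⟩
  obtain ⟨k, rfl⟩ : ∃ k, n = N + k := ⟨n - N, by omega⟩
  have hk : M ≤ k := by omega
  rw [Real.dist_eq, hd k]
  have h1 := hM k hk
  rw [Real.dist_eq, sub_zero, abs_of_nonneg (by positivity)] at h1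
  have h2 : |∑ i ∈ range k, a ^ (k - 1 - i) * (c (N + i) - L)| ≤ η / 2 := by
    calc |∑ i ∈ range k, a ^ (k - 1 - i) * (c (N + i) - L)|
        ≤ ∑ i ∈ range k, |a ^ (k - 1 - i) * (c (N + i) - L)| := Finset.abs_sum_le_sum_abs _ _
      _ ≤ ∑ i ∈ range k, a ^ (k - 1 - i) * (η / 2 * (1 - a)) := by
          refine Finset.sum_le_sum fun i _ => ?_
          rw [abs_mul, abs_of_nonneg (pow_nonneg ha _)]
          refine mul_le_mul_of_nonneg_left ?_ (pow_nonneg ha _)
          have := hN (N + i) (by omega)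
          rw [Real.dist_eq] at this
          exact this.le
      _ = (∑ i ∈ range k, a ^ i) * (η / 2 * (1 - a)) := by
          rw [← Finset.sum_mul, Finset.sum_range_reflect (fun i => a ^ i) k]
      _ ≤ η / 2 := by
          have h3 : (∑ i ∈ range k, a ^ i) * (1 - a) = 1 - a ^ k := by
            have := geom_sum_mul a k
            linarith
          calc (∑ i ∈ range k, a ^ i) * (η / 2 * (1 - a)) =
              η / 2 * ((∑ i ∈ range k, a ^ i) * (1 - a)) := by ring
            _ = η / 2 * (1 - a ^ k) := by rw [h3]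
            _ ≤ η / 2 * 1 := by
                refine mul_le_mul_of_nonneg_left ?_ (half_pos hη).le
                have := pow_nonneg ha k
                linarith
            _ = η / 2 := mul_one _
  calc |a ^ k * (x N - L / (1 - a)) + ∑ i ∈ range k, a ^ (k - 1 - i) * (c (N + i) - L)|
      ≤ |a ^ k * (x N - L / (1 - a))| + |∑ i ∈ range k, a ^ (k - 1 - i) * (c (N + i) - L)| :=
        abs_add_le _ _
    _ = a ^ k * |x N - L / (1 - a)| + |∑ i ∈ range k, a ^ (k - 1 - i) * (c (N + i) - L)| := by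
        rw [abs_mul, abs_of_nonneg (pow_nonneg ha _)]
    _ < η := by linarith

/-- **The limits of the moments.** -/
theorem e_tendsto (m r : ℕ) : Tendsto (fun k => E k r (gm m)) atTop (𝓝 (mu m)) := by
  induction m with
  | zero =>
    have e : ∀ k, E k r (gm 0) = 1 := fun k => by rw [gm_zero]; exact E_one k r
    simp only [e]
    have : mu 0 = 1 := by simp [mu]
    rw [this]
    exact tendsto_const_nhds
  | succ m ih =>
    have ha : (0 : ℝ) ≤ (1 / 2) ^ (m + 1) := by positivity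
    have ha1 : ((1 : ℝ) / 2) ^ (m + 1) < 1 := pow_lt_one₀ (by norm_num) (by norm_num) (by omega)
    have h := rec_tendsto ha ha1 (x := fun k => E k r (gm (m + 1)))
      (c := fun k => (2 ^ (m + 1) - (1 / 2) ^ (m + 1)) * E k r (gm m)) (fun k => e_rec m k r)
      (ih.const_mul _)
    have e : (2 ^ (m + 1) - (1 / 2) ^ (m + 1)) * mu m / (1 - (1 / 2) ^ (m + 1)) = mu (m + 1) := by
      rw [mu_succ, div_eq_iff (by linarith)]
      have e6 : ((1 : ℝ) / 2) ^ (m + 1) * 2 ^ (m + 1) = 1 := by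
        rw [← mul_pow]; norm_num
      obtain ⟨y, hy⟩ : ∃ y : ℝ, y = ((1 : ℝ) / 2) ^ (m + 1) := ⟨_, rfl⟩
      obtain ⟨Y, hY⟩ : ∃ Y : ℝ, Y = (2 : ℝ) ^ (m + 1) := ⟨_, rfl⟩
      rw [← hy, ← hY] at e6 ⊢
      linear_combination (mu m) * e6
    rwa [e] at h

/-- The moments are bounded. -/
theorem e_bdd (m r : ℕ) : ∃ K : ℝ, 0 < K ∧ ∀ k, E k r (gm m) ≤ K := by
  obtain ⟨K, hK⟩ := (e_tendsto m r).bddAbove_range
  exact ⟨max K 1, lt_max_of_lt_right one_pos, fun k => (hK ⟨k, rfl⟩).trans (le_max_left _ _)⟩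

end Pool.Agent.H29D
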