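import Pool.Agent.H29D.Wtv
import Pool.Agent.Helper29L.Stm5

/-!
# The averages over the fans (helper29)
-/

set_option autoImplicit false
set_option linter.all false

open Finset Filter Topology
open scoped Classical

namespace Pool.Agent.H29D

open Pool.Agent.Helper29L (chain C2 StepOK)
open Pool.Agent.Helper29L.FanT (image_cons)

theorem sum_cons (k : ℕ) (A : ℕ → Finset ℕ) (f : (Fin (k + 1) → ℕ) → ℝ) :
    ∑ Q ∈ (Fintype.piFinset fun i : Fin (k + 1) => A i), f Q =
      ∑ q ∈ A 0, ∑ Q ∈ (Fintype.piFinset fun i : Fin k => A (i + 1)), f (Fin.cons q Q) := by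
  rw [← Finset.sum_fiberwise_of_maps_to (g := fun Q : Fin (k + 1) → ℕ => Q 0) (t := A 0)]
  · refine Finset.sum_congr rfl fun q hq => ?_
    refine Finset.sum_bij' (fun Q _ => Fin.tail Q) (fun Q _ => Fin.cons q Q) ?_ ?_ ?_ ?_ ?_
    · intro Q hQ
      rw [Finset.mem_filter, Fintype.mem_piFinset] at hQ
      obtain ⟨h1, h3⟩ := hQ
      rw [Fintype.mem_piFinset]
      intro i
      have := h1 i.succ
      simpa [Fin.tail] using this
    · intro Q hQ
      rw [Fintype.mem_piFinset] at hQ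
      rw [Finset.mem_filter, Fintype.mem_piFinset]
      refine ⟨fun i => ?_, Fin.cons_zero _ _⟩
      refine Fin.cases ?_ (fun j => ?_) i
      · simpa using hq
      · have := hQ j
        simpa using this
    · intro Q hQ
      rw [Finset.mem_filter] at hQ
      show Fin.cons q (Fin.tail Q) = Q
      rw [← hQ.2, Fin.cons_self_tail]
    · intro Q hQ
      exact Fin.tail_cons _ _
    · intro Q hQ
      rw [Finset.mem_filter] at hQ
      show f Q = f (Fin.cons q (Fin.tail Q))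
      rw [← hQ.2, Fin.cons_self_tail]
  · intro Q hQ
    have := Fintype.mem_piFinset.1 hQ 0
    simpa using this

theorem fanE {g : ℕ → ℝ} {G : ℝ} {N : ℕ} (hg : ∀ n ≤ N, |g n| ≤ G) (k : ℕ) :
    ∀ (A : ℕ → Finset ℕ) (r : Finset ℕ → ℕ) (δ : ℝ) (Z₀ : Finset ℕ), 0 ≤ δ → r Z₀ + k ≤ N →
    (∀ i < k, ∀ Z ⊆ Z₀ ∪ (range i).biUnion A,
      (∀ q ∈ A i, r (insert q Z) = r Z + 1 ∨ r (insert q Z) + 1 = r Z) ∧
      |(((A i).filter fun q => r (insert q Z) = r Z + 1).card : ℝ) - (1 / 2) ^ (r Z) * (A i).card| ≤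
        2 * δ * (A i).card) →
    |∑ Q ∈ (Fintype.piFinset fun i : Fin k => A i), g (r (univ.image Q ∪ Z₀)) -
      E k (r Z₀) g * ∏ i ∈ range k, ((A i).card : ℝ)| ≤
      4 * k * δ * G * ∏ i ∈ range k, ((A i).card : ℝ) := by
  have hG : 0 ≤ G := (abs_nonneg _).trans (hg 0 (Nat.zero_le _))
  induction k with
  | zero =>
    intro A r δ Z₀ hδ _ _
    have h1 : (Fintype.piFinset fun i : Fin 0 => A i) = univ := by
      ext Q
      simp
    rw [h1, Fintype.sum_unique]
    simp [E]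
  | succ k ih =>
    intro A r δ Z₀ hδ hN hyp
    set A' : ℕ → Finset ℕ := fun i => A (i + 1) with hA'
    have hP : ∏ i ∈ range (k + 1), ((A i).card : ℝ) =
        (∏ i ∈ range k, ((A' i).card : ℝ)) * ((A 0).card : ℝ) := Finset.prod_range_succ' _ _
    obtain ⟨P, hPdef⟩ : ∃ P : ℝ, P = ∏ i ∈ range k, ((A' i).card : ℝ) := ⟨_, rfl⟩
    have hP0 : 0 ≤ P := by
      rw [hPdef]
      exact Finset.prod_nonneg fun i _ => Nat.cast_nonneg _
    rw [hP, ← hPdef]
    obtain ⟨R, hR⟩ : ∃ R : ℕ, R = r Z₀ := ⟨_, rfl⟩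
    -- the first step
    have h0 := hyp 0 (Nat.succ_pos k) Z₀ (Finset.subset_union_left)
    rw [← hR] at h0 hN
    -- induction hypothesis
    have hstep : ∀ q ∈ A 0, |∑ Q ∈ (Fintype.piFinset fun i : Fin k => A' i),
        g (r (univ.image Q ∪ insert q Z₀)) - E k (r (insert q Z₀)) g * P| ≤
        4 * k * δ * G * P := by
      intro q hq
      rw [hPdef]
      have hq' := h0.1 q hq
      refine ih A' r δ (insert q Z₀) hδ (by omega) ?_
      intro i hi Z hZ
      refine hyp (i + 1) (Nat.succ_lt_succ hi) Z ?_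
      refine hZ.trans ?_
      intro x hx
      rw [Finset.mem_union, Finset.mem_insert, Finset.mem_biUnion] at hx
      rw [Finset.mem_union, Finset.mem_biUnion]
      rcases hx with (rfl | hx) | ⟨j, hj, hx⟩
      · exact Or.inr ⟨0, by simp, hq⟩
      · exact Or.inl hx
      · exact Or.inr ⟨j + 1, by simpa using hj, hx⟩
    have hcount : ∑ Q ∈ (Fintype.piFinset fun i : Fin (k + 1) => A i), g (r (univ.image Q ∪ Z₀)) =
        ∑ q ∈ A 0, ∑ Q ∈ (Fintype.piFinset fun i : Fin k => A' i),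
          g (r (univ.image Q ∪ insert q Z₀)) := by
      rw [sum_cons]
      refine Finset.sum_congr rfl fun q _ => Finset.sum_congr rfl fun Q _ => ?_
      rw [image_cons, Finset.insert_union, Finset.union_insert]
    have hsum : |∑ Q ∈ (Fintype.piFinset fun i : Fin (k + 1) => A i), g (r (univ.image Q ∪ Z₀)) -
        ∑ q ∈ A 0, E k (r (insert q Z₀)) g * P| ≤ (A 0).card * (4 * k * δ * G * P) := by
      rw [hcount, ← Finset.sum_sub_distrib]
      refine (Finset.abs_sum_le_sum_abs _ _).trans ?_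
      refine (Finset.sum_le_sum hstep).trans ?_
      rw [Finset.sum_const, nsmul_eq_mul]
    -- the sum over the first step
    obtain ⟨a, ha⟩ : ∃ a : ℕ, a = ((A 0).filter fun q => r (insert q Z₀) = R + 1).card := ⟨_, rfl⟩
    have hb : ((A 0).filter fun q => ¬ r (insert q Z₀) = R + 1).card + a = (A 0).card := by
      rw [ha, add_comm]
      exact Finset.card_filter_add_card_filter_not _
    have hval : ∑ q ∈ A 0, E k (r (insert q Z₀)) g * P =
        (a : ℝ) * (E k (R + 1) g * P) + (((A 0).card : ℝ) - a) * (E k (R - 1) g * P) := by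
      rw [← Finset.sum_filter_add_sum_filter_not (A 0) (fun q => r (insert q Z₀) = R + 1)]
      congr 1
      · rw [ha, ← nsmul_eq_mul, ← Finset.sum_const]
        refine Finset.sum_congr rfl fun q hq => ?_
        rw [(Finset.mem_filter.1 hq).2]
      · have e : ((A 0).card : ℝ) - a =
            (((A 0).filter fun q => ¬ r (insert q Z₀) = R + 1).card : ℝ) := by
          rw [← hb]
          push_cast
          ring
        rw [e, ← nsmul_eq_mul, ← Finset.sum_const]
        refine Finset.sum_congr rfl fun q hq => ?_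
        obtain ⟨h1, h2⟩ := Finset.mem_filter.1 hq
        have h3 := (h0.1 q h1).resolve_left h2
        have h4 : r (insert q Z₀) = R - 1 := by omega
        rw [h4]
    have h5 := h0.2
    rw [← ha] at h5
    have hc1 := E_bound k hg (R + 1) (by omega)
    have hc2 := E_bound k hg (R - 1) (by omega)
    have hdiff : |E k (R + 1) g - E k (R - 1) g| ≤ 2 * G := by
      rw [abs_le] at hc1 hc2 ⊢
      constructor <;> linarith [hc1.1, hc1.2, hc2.1, hc2.2]
    have hmain : |∑ q ∈ A 0, E k (r (insert q Z₀)) g * P -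
        E (k + 1) R g * (P * ((A 0).card : ℝ))| ≤ 4 * δ * G * (A 0).card * P := by
      have e : ∑ q ∈ A 0, E k (r (insert q Z₀)) g * P -
          E (k + 1) R g * (P * ((A 0).card : ℝ)) =
          (((a : ℝ) - (1 / 2) ^ R * (A 0).card) * P) * (E k (R + 1) g - E k (R - 1) g) := by
        rw [hval, E_succ]
        ring
      rw [e, abs_mul, abs_mul, abs_of_nonneg hP0]
      have h6 : |(a : ℝ) - (1 / 2) ^ R * (A 0).card| * P ≤ 2 * δ * (A 0).card * P :=
        mul_le_mul_of_nonneg_right h5 hP0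
      calc |(a : ℝ) - (1 / 2) ^ R * (A 0).card| * P * |E k (R + 1) g - E k (R - 1) g| ≤
          (2 * δ * (A 0).card * P) * (2 * G) :=
            mul_le_mul h6 hdiff (abs_nonneg _) (by positivity)
        _ = _ := by ring
    rw [← hR]
    have htri := abs_add_le (∑ Q ∈ (Fintype.piFinset fun i : Fin (k + 1) => A i),
        g (r (univ.image Q ∪ Z₀)) - ∑ q ∈ A 0, E k (r (insert q Z₀)) g * P)
        (∑ q ∈ A 0, E k (r (insert q Z₀)) g * P - E (k + 1) R g * (P * ((A 0).card : ℝ)))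
    rw [sub_add_sub_cancel] at htri
    refine htri.trans ?_
    refine (add_le_add hsum hmain).trans (le_of_eq ?_)
    push_cast
    ring

/-- The average over the tuples. -/
noncomputable def mean (j : ℕ) (A : ℕ → Finset ℕ) (f : Finset ℕ → ℝ) : ℝ :=
  (∑ Q ∈ (Fintype.piFinset fun i : Fin j => A i), f (univ.image Q)) /
    ((Fintype.piFinset fun i : Fin j => A i).card : ℝ)

theorem card_pi' (j : ℕ) (A : ℕ → Finset ℕ) :
    (((Fintype.piFinset fun i : Fin j => A i).card : ℕ) : ℝ) = ∏ i ∈ range j, ((A i).card : ℝ) := by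
  rw [Fintype.card_piFinset, Nat.cast_prod, ← Fin.prod_univ_eq_prod_range (fun i => ((A i).card : ℝ)) j]

/-- **The averages over the fans.** -/
theorem wfan (m : ℕ) {ε : ℝ} (hε : 0 < ε) (R : ℕ) : ∃ (k : ℕ) (δ : ℝ), 0 < δ ∧ δ ≤ 1 / 4 ∧
    ∀ A : ℕ → Finset ℕ, (∀ i < k + 1, (A i).Nonempty) → ∀ r : Finset ℕ → ℕ, r ∅ ≤ R →
    (∀ i < k + 1, StepOK r δ ((range i).biUnion A) (A i)) →
    ∀ j : ℕ, j = k ∨ j = k + 1 → ∀ F : ℕ → ℝ, (∀ n, |F n| ≤ gm m n) →
      |mean j A (fun Z => F (r Z)) - 2 * W ((r ∅ + j) % 2) F| ≤ ε := by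
  obtain ⟨k, hk⟩ : ∃ k : ℕ, ∀ s ≤ R, ∀ j ≥ k, ∀ F : ℕ → ℝ, (∀ n, |F n| ≤ gm m n) →
      |E j s F - 2 * W ((j + s) % 2) F| ≤ ε / 2 := by
    choose f hf using fun s : ℕ => wtv m s (half_pos hε)
    refine ⟨(range (R + 1)).sup f, fun s hs j hj => hf s j ?_⟩
    exact (Finset.le_sup (mem_range.2 (by omega))).trans hj
  obtain ⟨N, hN⟩ : ∃ N : ℕ, N = R + (k + 1) := ⟨_, rfl⟩
  obtain ⟨G, hG⟩ : ∃ G : ℝ, G = gm m N := ⟨_, rfl⟩
  have hG1 : 1 ≤ G := by
    rw [hG]; unfold gm
    exact one_le_pow₀ (one_le_pow₀ (by norm_num))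
  have hgN : ∀ n ≤ N, gm m n ≤ G := fun n hn => by
    rw [hG]; unfold gm
    exact pow_le_pow_right₀ (one_le_pow₀ (by norm_num)) hn
  obtain ⟨δ, hδ⟩ : ∃ δ : ℝ, δ = min (1 / 4) (ε / 2 / (4 * (k + 1) * G)) := ⟨_, rfl⟩
  have hδ0 : 0 < δ := by rw [hδ]; exact lt_min (by norm_num) (by positivity)
  refine ⟨k, δ, hδ0, by rw [hδ]; exact min_le_left _ _, fun A hA r hr hst j hj F hF => ?_⟩
  have hjk : j ≤ k + 1 := by omega
  have hP : 0 < ∏ i ∈ range j, ((A i).card : ℝ) := by
    refine Finset.prod_pos fun i hi => ?_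
    have := (hA i (by have := mem_range.1 hi; omega)).card_pos
    exact_mod_cast this
  have h1 := fanE (g := F) (G := G) (N := N) (fun n hn => (hF n).trans (hgN n hn)) j A r δ ∅ hδ0.le
    (by omega) (fun i hi Z hZ => hst i (by omega) Z (by rwa [Finset.empty_union] at hZ))
  simp only [Finset.union_empty] at h1
  have h2 := hk (r ∅) hr j (by omega) F hF
  unfold mean
  rw [card_pi']
  obtain ⟨P, hPe⟩ : ∃ P : ℝ, P = ∏ i ∈ range j, ((A i).card : ℝ) := ⟨_, rfl⟩
  obtain ⟨S, hS⟩ : ∃ S : ℝ, S = ∑ Q ∈ (Fintype.piFinset fun i : Fin j => A i), F (r (univ.image Q)) :=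
    ⟨_, rfl⟩
  rw [← hPe] at h1 hP
  rw [← hPe]
  have h1' : |S - E j (r ∅) F * P| ≤ 4 * j * δ * G * P := by
    rw [hS]
    exact h1
  have h3 : |S / P - E j (r ∅) F| ≤ 4 * j * δ * G := by
    have e : S / P - E j (r ∅) F = (S - E j (r ∅) F * P) / P := by field_simp
    rw [e, abs_div, abs_of_pos hP, div_le_iff₀ hP]
    exact h1'
  have h4 : 4 * (j : ℝ) * δ * G ≤ ε / 2 := by
    have hj' : (j : ℝ) ≤ k + 1 := by exact_mod_cast hjk
    have hδ2 : δ ≤ ε / 2 / (4 * (k + 1) * G) := by rw [hδ]; exact min_le_right _ _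
    rw [le_div_iff₀ (by positivity)] at hδ2
    calc 4 * (j : ℝ) * δ * G ≤ 4 * ((k : ℝ) + 1) * δ * G := by
          gcongr
      _ = δ * (4 * (k + 1) * G) := by ring
      _ ≤ ε / 2 := hδ2
  rw [← hS]
  rw [add_comm (r ∅) j]
  have a1 := abs_le.1 (h3.trans h4)
  have a2 := abs_le.1 h2
  rw [abs_le]
  constructor <;> linarith [a1.1, a1.2, a2.1, a2.2]

end Pool.Agent.H29D
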