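import Pool.Agent.H29D.Chain

/-!
# Convergence with weights, and the fans (helper29)
-/

set_option autoImplicit false
set_option linter.all false

open Finset Filter Topology
open scoped Classical

namespace Pool.Agent.H29D

open Pool.Agent.Helper29L (chain C2 S_MK S_C2 mk c2 StepOK)
open Pool.Agent.Helper29L.FanT (chain_mem card_cons image_cons)

theorem chain_nonneg (k r n : ℕ) : 0 ≤ chain k r n := (chain_mem k r n).1

theorem sum_le_E (k r N : ℕ) {g : ℕ → ℝ} (hg : ∀ n, 0 ≤ g n) :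
    ∑ n ∈ range N, chain k r n * g n ≤ E k r g := by
  rw [E_chain k g r (max N (r + k + 1)) (by
    have := le_max_right N (r + k + 1)
    omega)]
  refine Finset.sum_le_sum_of_subset_of_nonneg (Finset.range_mono (le_max_left _ _)) ?_
  intro n _ _
  exact mul_nonneg (chain_nonneg _ _ _) (hg n)

theorem gm_succ (m n : ℕ) : gm m n = (1 / 2) ^ n * gm (m + 1) n := by
  unfold gm
  rw [pow_succ, mul_pow]
  have e5 : ((1 : ℝ) / 2) ^ n * 2 ^ n = 1 := by
    rw [← mul_pow]; norm_num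
  linear_combination (-((2 : ℝ) ^ m) ^ n) * e5

theorem gm_tail {m n n₁ : ℕ} (h : n₁ ≤ n) : gm m n ≤ (1 / 2) ^ n₁ * gm (m + 1) n := by
  rw [gm_succ]
  exact mul_le_mul_of_nonneg_right (pow_le_pow_of_le_one (by norm_num) (by norm_num) h)
    (gm_nonneg _ _)

/-- The moments of one parity class of `C2`. -/
theorem c2_par (m b : ℕ) (hb : b < 2) {K : ℝ} (hK : ∀ k, E k 0 (gm m) ≤ K) (N : ℕ) :
    2 * ∑ n ∈ (range N).filter (fun n => n % 2 = b), C2 n * gm m n ≤ K := by
  obtain ⟨S, hS⟩ : ∃ S : ℝ, S = ∑ n ∈ (range N).filter (fun n => n % 2 = b), gm m n := ⟨_, rfl⟩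
  have hS0 : 0 ≤ S := by
    rw [hS]; exact Finset.sum_nonneg fun n _ => gm_nonneg _ _
  refine le_of_forall_pos_le_add fun ε hε => ?_
  obtain ⟨η, hηe⟩ : ∃ η : ℝ, η = ε / (S + 1) := ⟨_, rfl⟩
  have hη : 0 < η := by rw [hηe]; positivity
  -- the index `k`
  obtain ⟨k₀, hk₀⟩ : ∃ k₀ : ℕ, ∀ n < N, ∀ k ≥ k₀, (k + 0) % 2 = n % 2 →
      |chain k 0 n - 2 * C2 n| ≤ η := by
    choose f hf using fun n : ℕ => ((mk n 0).2 η hη)
    refine ⟨(range N).sup f, fun n hn k hk => hf n k ?_⟩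
    exact (Finset.le_sup (mem_range.2 hn)).trans hk
  obtain ⟨k, hk, hkb⟩ : ∃ k ≥ k₀, k % 2 = b := by
    by_cases h : k₀ % 2 = b
    · exact ⟨k₀, le_rfl, h⟩
    · exact ⟨k₀ + 1, Nat.le_succ _, by omega⟩
  have h1 : ∑ n ∈ (range N).filter (fun n => n % 2 = b), chain k 0 n * gm m n ≤ K := by
    refine le_trans ?_ ((sum_le_E k 0 N (gm_nonneg m)).trans (hK k))
    exact Finset.sum_le_sum_of_subset_of_nonneg (Finset.filter_subset _ _)
      fun n _ _ => mul_nonneg (chain_nonneg _ _ _) (gm_nonneg _ _)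
  have h2 : 2 * ∑ n ∈ (range N).filter (fun n => n % 2 = b), C2 n * gm m n ≤
      ∑ n ∈ (range N).filter (fun n => n % 2 = b), chain k 0 n * gm m n + η * S := by
    rw [hS, Finset.mul_sum, Finset.mul_sum, ← Finset.sum_add_distrib]
    refine Finset.sum_le_sum fun n hn => ?_
    obtain ⟨hn1, hn2⟩ := Finset.mem_filter.1 hn
    have h3 := hk₀ n (mem_range.1 hn1) k hk (by omega)
    have h4 := (abs_le.1 h3).1
    have h5 := gm_nonneg m n
    nlinarith
  have h3 : η * S ≤ ε := by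
    rw [hηe, div_mul_eq_mul_div, div_le_iff₀ (by positivity)]
    nlinarith
  linarith

theorem c2_sum (m : ℕ) : Summable fun n => C2 n * gm m n := by
  obtain ⟨K, hK0, hK⟩ := e_bdd m 0
  refine summable_of_sum_range_le (c := K)
    (fun n => mul_nonneg (c2.1 n).le (gm_nonneg m n)) fun N => ?_
  have h0 := c2_par m 0 (by norm_num) hK N
  have h1 := c2_par m 1 (by norm_num) hK N
  have e : ∑ n ∈ range N, C2 n * gm m n =
      ∑ n ∈ (range N).filter (fun n => n % 2 = 0), C2 n * gm m n +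
      ∑ n ∈ (range N).filter (fun n => n % 2 = 1), C2 n * gm m n := by
    rw [← Finset.sum_filter_add_sum_filter_not (range N) (fun n => n % 2 = 0)]
    congr 1
    refine Finset.sum_congr ?_ fun _ _ => rfl
    ext n
    simp only [Finset.mem_filter]
    constructor
    · rintro ⟨h, h'⟩; exact ⟨h, by omega⟩
    · rintro ⟨h, h'⟩; exact ⟨h, by omega⟩
  linarith

/-- The sum over one parity class. -/
noncomputable def W (b : ℕ) (F : ℕ → ℝ) : ℝ :=
  ∑' n, ({n : ℕ | n % 2 = b}.indicator fun n => C2 n * F n) n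

theorem ind_le (b m : ℕ) {F : ℕ → ℝ} (hF : ∀ n, |F n| ≤ gm m n) (n : ℕ) :
    |({n : ℕ | n % 2 = b}.indicator fun n => C2 n * F n) n| ≤ C2 n * gm m n := by
  by_cases h : n ∈ {n : ℕ | n % 2 = b}
  · rw [Set.indicator_of_mem h, abs_mul, abs_of_pos (c2.1 n)]
    exact mul_le_mul_of_nonneg_left (hF n) (c2.1 n).le
  · rw [Set.indicator_of_notMem h, abs_zero]
    exact mul_nonneg (c2.1 n).le (gm_nonneg m n)

theorem W_sum (b m : ℕ) {F : ℕ → ℝ} (hF : ∀ n, |F n| ≤ gm m n) :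
    Summable ({n : ℕ | n % 2 = b}.indicator fun n => C2 n * F n) :=
  Summable.of_norm_bounded (c2_sum m) fun n => by
    rw [Real.norm_eq_abs]
    exact ind_le b m hF n

/-- **Convergence with weights.** -/
theorem wtv (m r : ℕ) {ε : ℝ} (hε : 0 < ε) : ∃ k₀ : ℕ, ∀ k ≥ k₀, ∀ F : ℕ → ℝ,
    (∀ n, |F n| ≤ gm m n) → |E k r F - 2 * W ((k + r) % 2) F| ≤ ε := by
  obtain ⟨K, hK0, hK⟩ := e_bdd (m + 1) r
  obtain ⟨L, hL⟩ : ∃ L : ℝ, L = ∑' n, C2 n * gm (m + 1) n := ⟨_, rfl⟩
  have hL0 : 0 ≤ L := by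
    rw [hL]; exact tsum_nonneg fun n => mul_nonneg (c2.1 n).le (gm_nonneg _ n)
  -- `n₁`
  obtain ⟨n₁, hn₁⟩ : ∃ n₁ : ℕ, ((1 : ℝ) / 2) ^ n₁ * (K + 2 * L) ≤ ε / 2 := by
    have : Tendsto (fun n : ℕ => ((1 : ℝ) / 2) ^ n * (K + 2 * L)) atTop (𝓝 (0 * (K + 2 * L))) :=
      (tendsto_pow_atTop_nhds_zero_of_lt_one (by norm_num) (by norm_num)).mul_const _
    rw [zero_mul] at this
    obtain ⟨n₁, h⟩ := (this.eventually (ge_mem_nhds (half_pos hε))).exists
    exact ⟨n₁, h⟩
  obtain ⟨S, hS⟩ : ∃ S : ℝ, S = ∑ n ∈ range n₁, gm m n := ⟨_, rfl⟩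
  have hS0 : 0 ≤ S := by
    rw [hS]; exact Finset.sum_nonneg fun n _ => gm_nonneg _ _
  obtain ⟨η, hηe⟩ : ∃ η : ℝ, η = ε / 2 / (S + 1) := ⟨_, rfl⟩
  have hη : 0 < η := by rw [hηe]; positivity
  obtain ⟨k₀, hk₀⟩ : ∃ k₀ : ℕ, ∀ n < n₁, ∀ k ≥ k₀, (k + r) % 2 = n % 2 →
      |chain k r n - 2 * C2 n| ≤ η := by
    choose f hf using fun n : ℕ => ((mk n r).2 η hη)
    refine ⟨(range n₁).sup f, fun n hn k hk => hf n k ?_⟩
    exact (Finset.le_sup (mem_range.2 hn)).trans hk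
  refine ⟨k₀, fun k hk F hF => ?_⟩
  obtain ⟨b, hb⟩ : ∃ b : ℕ, b = (k + r) % 2 := ⟨_, rfl⟩
  rw [← hb]
  obtain ⟨I, hI⟩ : ∃ I : ℕ → ℝ, I = ({n : ℕ | n % 2 = b}.indicator fun n => C2 n * F n) := ⟨_, rfl⟩
  have hIs : Summable I := by rw [hI]; exact W_sum b m hF
  have hIle : ∀ n, |I n| ≤ C2 n * gm m n := fun n => by rw [hI]; exact ind_le b m hF n
  have hW : W b F = ∑ n ∈ range n₁, I n + ∑' n, I (n + n₁) := by
    unfold W
    rw [← hI]
    exact (hIs.sum_add_tsum_nat_add n₁).symm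
  -- the tail of `C2`
  have ht1 : |∑' n, I (n + n₁)| ≤ (1 / 2) ^ n₁ * L := by
    have hs1 : Summable fun n => C2 (n + n₁) * gm (m + 1) (n + n₁) :=
      (summable_nat_add_iff (f := fun n => C2 n * gm (m + 1) n) n₁).2 (c2_sum (m + 1))
    have hs2 : Summable fun n => |I (n + n₁)| := by
      refine Summable.of_nonneg_of_le (fun n => abs_nonneg _) (fun n => hIle _) ?_
      exact (summable_nat_add_iff (f := fun n => C2 n * gm m n) n₁).2 (c2_sum m)
    calc |∑' n, I (n + n₁)| ≤ ∑' n, |I (n + n₁)| := by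
          have := norm_tsum_le_tsum_norm (f := fun n => I (n + n₁)) hs2
          exact this
      _ ≤ ∑' n, (1 / 2) ^ n₁ * (C2 (n + n₁) * gm (m + 1) (n + n₁)) := by
          refine Summable.tsum_le_tsum (fun n => ?_) hs2 (hs1.mul_left _)
          refine (hIle _).trans ?_
          have h3 := gm_tail (m := m) (show n₁ ≤ n + n₁ by omega)
          have h4 := mul_le_mul_of_nonneg_left h3 (c2.1 (n + n₁)).le
          calc C2 (n + n₁) * gm m (n + n₁) ≤ C2 (n + n₁) * ((1 / 2) ^ n₁ * gm (m + 1) (n + n₁)) := h4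
            _ = _ := by ring
      _ = (1 / 2) ^ n₁ * ∑' n, C2 (n + n₁) * gm (m + 1) (n + n₁) := tsum_mul_left
      _ ≤ (1 / 2) ^ n₁ * L := by
          refine mul_le_mul_of_nonneg_left ?_ (by positivity)
          rw [hL, ← (c2_sum (m + 1)).sum_add_tsum_nat_add n₁]
          have : 0 ≤ ∑ n ∈ range n₁, C2 n * gm (m + 1) n :=
            Finset.sum_nonneg fun n _ => mul_nonneg (c2.1 n).le (gm_nonneg _ n)
          linarith
  -- the expected value
  obtain ⟨N, hN1, hN2⟩ : ∃ N : ℕ, r + k < N ∧ n₁ ≤ N := ⟨max (r + k + 1) n₁, by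
    have := le_max_left (r + k + 1) n₁
    omega, le_max_right _ _⟩
  have hE := E_chain k F r N hN1
  have hsplit : ∑ n ∈ range N, chain k r n * F n = ∑ n ∈ range n₁, chain k r n * F n +
      ∑ n ∈ (range N).filter (fun n => ¬ n < n₁), chain k r n * F n := by
    rw [← Finset.sum_filter_add_sum_filter_not (range N) (fun n => n < n₁)]
    congr 1
    refine Finset.sum_congr ?_ fun _ _ => rfl
    ext n
    simp only [Finset.mem_filter, Finset.mem_range]
    constructor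
    · rintro ⟨h, h'⟩; exact h'
    · intro h; exact ⟨h.trans_le hN2, h⟩
  have ht2 : |∑ n ∈ (range N).filter (fun n => ¬ n < n₁), chain k r n * F n| ≤ (1 / 2) ^ n₁ * K := by
    calc |∑ n ∈ (range N).filter (fun n => ¬ n < n₁), chain k r n * F n|
        ≤ ∑ n ∈ (range N).filter (fun n => ¬ n < n₁), |chain k r n * F n| :=
          Finset.abs_sum_le_sum_abs _ _
      _ ≤ ∑ n ∈ (range N).filter (fun n => ¬ n < n₁), (1 / 2) ^ n₁ * (chain k r n * gm (m + 1) n) := by
          refine Finset.sum_le_sum fun n hn => ?_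
          have hn' := (Finset.mem_filter.1 hn).2
          rw [abs_mul, abs_of_nonneg (chain_nonneg k r n)]
          have h3 := (hF n).trans (gm_tail (m := m) (not_lt.1 hn'))
          calc chain k r n * |F n| ≤ chain k r n * ((1 / 2) ^ n₁ * gm (m + 1) n) :=
                mul_le_mul_of_nonneg_left h3 (chain_nonneg _ _ _)
            _ = _ := by ring
      _ = (1 / 2) ^ n₁ * ∑ n ∈ (range N).filter (fun n => ¬ n < n₁), chain k r n * gm (m + 1) n := by
          rw [Finset.mul_sum]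
      _ ≤ (1 / 2) ^ n₁ * K := by
          refine mul_le_mul_of_nonneg_left ?_ (by positivity)
          refine le_trans ?_ ((sum_le_E k r N (gm_nonneg (m + 1))).trans (hK k))
          exact Finset.sum_le_sum_of_subset_of_nonneg (Finset.filter_subset _ _)
            fun n _ _ => mul_nonneg (chain_nonneg _ _ _) (gm_nonneg _ _)
  -- the main part
  have hmain : |∑ n ∈ range n₁, chain k r n * F n - 2 * ∑ n ∈ range n₁, I n| ≤ η * S := by
    rw [Finset.mul_sum, ← Finset.sum_sub_distrib, hS, Finset.mul_sum]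
    refine (Finset.abs_sum_le_sum_abs _ _).trans (Finset.sum_le_sum fun n hn => ?_)
    have hn' := mem_range.1 hn
    by_cases hp : n % 2 = b
    · have e : I n = C2 n * F n := by
        rw [hI]; exact Set.indicator_of_mem (show n ∈ {n : ℕ | n % 2 = b} from hp) _
      have h3 := hk₀ n hn' k hk (by omega)
      have e2 : chain k r n * F n - 2 * I n = (chain k r n - 2 * C2 n) * F n := by rw [e]; ring
      rw [e2, abs_mul]
      exact mul_le_mul h3 (hF n) (abs_nonneg _) hη.le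
    · have e : I n = 0 := by
        rw [hI]; exact Set.indicator_of_notMem (show n ∉ {n : ℕ | n % 2 = b} from hp) _
      have h3 : chain k r n = 0 := (mk n r).1 k (by omega)
      rw [e, h3, zero_mul, mul_zero, sub_zero, abs_zero]
      exact mul_nonneg hη.le (gm_nonneg _ _)
  have h3 : η * S ≤ ε / 2 := by
    rw [hηe, div_mul_eq_mul_div, div_le_iff₀ (by positivity)]
    nlinarith
  rw [hE, hsplit, hW]
  have h4 : ((1 : ℝ) / 2) ^ n₁ * (K + 2 * L) = (1 / 2) ^ n₁ * K + 2 * ((1 / 2) ^ n₁ * L) := by ring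
  have a1 := abs_le.1 hmain
  have a2 := abs_le.1 ht1
  have a3 := abs_le.1 ht2
  rw [abs_le]
  constructor <;> linarith [a1.1, a1.2, a2.1, a2.2, a3.1, a3.2]

/-- The moments of one parity class. -/
theorem W_gm (m b : ℕ) (hb : b < 2) : 2 * W b (gm m) = mu m := by
  have hF : ∀ n, |gm m n| ≤ gm m n := fun n => by rw [abs_of_nonneg (gm_nonneg m n)]
  refine eq_of_abs_sub_le_all fun ε hε => ?_
  obtain ⟨k₀, hk₀⟩ := wtv m 0 (half_pos hε)
  have h1 := Metric.tendsto_atTop.1 (e_tendsto m 0) (ε / 2) (half_pos hε)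
  obtain ⟨k₁, hk₁⟩ := h1
  obtain ⟨k, hk, hk', hkb⟩ : ∃ k, k₀ ≤ k ∧ k₁ ≤ k ∧ k % 2 = b := by
    by_cases h : (max k₀ k₁) % 2 = b
    · exact ⟨_, le_max_left _ _, le_max_right _ _, h⟩
    · exact ⟨max k₀ k₁ + 1, (le_max_left _ _).trans (Nat.le_succ _),
        (le_max_right _ _).trans (Nat.le_succ _), by omega⟩
  have h2 := hk₀ k hk (gm m) hF
  have h3 := hk₁ k hk'
  rw [Real.dist_eq] at h3
  rw [Nat.add_zero, hkb] at h2
  have a1 := abs_le.1 h2
  have a2 := abs_lt.1 h3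
  rw [abs_le]
  constructor <;> linarith [a1.1, a1.2, a2.1, a2.2]

end Pool.Agent.H29D
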